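import Mathlib
import Pool.Agent.H.MP_9f0ab0_gt.A

namespace Pool.Agent.Results.MP_9f0ab0_gt.Unstable

open MeasureTheory Set Metric Module Filter
open Pool.Agent.H.MP_9f0ab0_gt (K Had had vx s K_neg K_smul int_one int_off int_diag K_norm
  K_compact K_int K_zero K_sub cover cube_vol sq_int cube_low ball_le s_abs)
open scoped Pointwise RealInnerProductSpace Topology

/-- Euclidean space. -/
abbrev E (d : ℕ) := EuclideanSpace ℝ (Fin d)

/-- A polytope cut out by at most `N` closed half-spaces. -/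
def Polytope {d : ℕ} (N : ℕ) (P : Set (E d)) : Prop :=
  IsCompact P ∧ (interior P).Nonempty ∧
    ∃ S : Finset (E d × ℝ), S.card ≤ N ∧ P = {x | ∀ p ∈ S, ⟪p.1, x⟫ ≤ p.2}

/-- The uniform distribution on `P` has mean zero and identity covariance. -/
def Isotropic {d : ℕ} (P : Set (E d)) : Prop :=
  (∀ i, (volume.real P)⁻¹ * ∫ x in P, x i = 0) ∧
    ∀ i j, (volume.real P)⁻¹ * ∫ x in P, x i * x j = if i = j then 1 else 0

/-- The hyperplane orthogonal to `θ`. -/
noncomputable abbrev Perp {d : ℕ} (θ : E d) : Submodule ℝ (E d) := (Submodule.span ℝ {θ})ᗮ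

/-- The Lebesgue measure, inside the hyperplane `θ^⊥`, of the central section of `P`. -/
noncomputable def sec {d : ℕ} (P : Set (E d)) (θ : E d) : ℝ :=
  volume.real {y : Perp θ | (y : E d) ∈ P}

/-- The relative central sectional area. -/
noncomputable def A {d : ℕ} (P : Set (E d)) (θ : E d) : ℝ := sec P θ / volume.real P

variable {d : ℕ} {h : Fin d → Fin d → ℝ}

theorem rk {θ : E d} (hθ : ‖θ‖ = 1) : finrank ℝ (Perp θ) + 1 = d := by
  have := Submodule.finrank_add_finrank_orthogonal (Submodule.span ℝ {θ})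
  rw [finrank_span_singleton (by rintro rfl; simp at hθ), finrank_euclideanSpace_fin] at this
  rwa [add_comm]

theorem vol_smul (P : Set (E d)) {μ : ℝ} (hμ : 0 < μ) :
    volume.real (μ • P) = μ ^ d * volume.real P := by
  rw [Measure.real, Measure.addHaar_smul_of_nonneg _ hμ.le, ENNReal.toReal_mul,
    ENNReal.toReal_ofReal (by positivity), finrank_euclideanSpace_fin, Measure.real]

theorem A_smul (P : Set (E d)) {θ : E d} (hθ : ‖θ‖ = 1) {μ : ℝ} (hμ : 0 < μ) :
    A (μ • P) θ = μ⁻¹ * sec P θ / volume.real P := by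
  have e : {y : Perp θ | (y : E d) ∈ μ • P} = μ • {y : Perp θ | (y : E d) ∈ P} := by
    ext y
    simp [mem_smul_set_iff_inv_smul_mem₀ hμ.ne']
  have e2 : μ ^ d = μ ^ finrank ℝ (Perp θ) * μ := by rw [← pow_succ, rk hθ]
  have e3 : sec (μ • P) θ = μ ^ finrank ℝ (Perp θ) * sec P θ := by
    rw [sec, e, Measure.real, Measure.addHaar_smul_of_nonneg _ hμ.le,
      ENNReal.toReal_mul, ENNReal.toReal_ofReal (by positivity), sec, Measure.real]
  rw [A, e3, vol_smul _ hμ, e2]
  by_cases v : volume.real P = 0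
  · simp [v]
  · field_simp

theorem poly (h : Fin d → Fin d → ℝ) (hd : 4 ≤ d) {μ t : ℝ} (hμ : 0 < μ) (ht : t < d) :
    Polytope (d ^ 2) (K h μ t) := by
  classical
  refine ⟨K_compact hμ.le t, ⟨0, K_int hμ ht⟩,
    Finset.univ.image fun p : Bool × (Fin d ⊕ Fin d) => ((if p.1 then (1 : ℝ) else -1) •
      p.2.elim (fun i => EuclideanSpace.single i 1) (fun b => WithLp.toLp 2 (h b)),
      p.2.elim (fun _ => μ) fun _ => μ * (d - t)), Finset.card_image_le.trans ?_, ?_⟩
  · simp; nlinarith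
  · ext x
    simp only [K, mem_ofPred_eq, Finset.forall_mem_image, Finset.mem_univ, forall_const,
      Prod.forall, Bool.forall_bool, Sum.forall, abs_le, forall_and]
    simp [PiLp.inner_apply, mul_comm, neg_le]

/-- The standard deviation of a coordinate. -/
noncomputable def sd (h : Fin d → Fin d → ℝ) (t : ℝ) (i : Fin d) : ℝ :=
  √((∫ x in K h 1 t, x i * x i) / volume.real (K h 1 t))

theorem iso (H : Had d h) {t : ℝ} {i : Fin d} (hs : 0 < sd h t i) :
    Isotropic (K h (sd h t i)⁻¹ t) := by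
  refine ⟨fun j => by rw [int_one, mul_zero], fun j k => ?_⟩
  split_ifs with e
  · subst e
    have hμ := inv_pos.2 hs
    have a := Measure.setIntegral_comp_smul_of_pos volume (fun x : E d => x i * x i) (K h 1 t) hμ
    have b : ∀ x : E d, ((sd h t i)⁻¹ • x) i * ((sd h t i)⁻¹ • x) i =
        (sd h t i ^ 2)⁻¹ * (x i * x i) := fun x => by simp; ring
    have c := Real.sqrt_pos.1 hs
    simp only [b, integral_const_mul, finrank_euclideanSpace_fin, smul_eq_mul] at a
    rw [int_diag H _ _ j i, K_smul hμ, vol_smul _ hμ, mul_inv, mul_comm _ (volume.real _)⁻¹,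
      mul_assoc, ← a, sd, Real.sq_sqrt c.le]
    have v : volume.real (K h 1 t) ≠ 0 := fun v => by simp [v] at c
    have w : (∫ x in K h 1 t, x i * x i) ≠ 0 := fun v => by simp [v] at c
    generalize (∫ x in K h 1 t, x i * x i) = J at w ⊢
    field_simp
  · rw [int_off H _ _ e, mul_zero]

theorem sec_ball {θ : E d} (hθ : ‖θ‖ = 1) (v : E d) {c : ℝ} (hc : 0 < c) :
    volume {y : Perp θ | (y : E d) ∈ closedBall v (c * √d)} ≠ ⊤ ∧
    volume.real {y : Perp θ | (y : E d) ∈ closedBall v (c * √d)} ≤ c ^ d * 5 ^ d / c := by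
  have a : {y : Perp θ | (y : E d) ∈ closedBall v (c * √d)} ⊆
      closedBall ((Perp θ).orthogonalProjectionOnto v) (c * √d) := fun y hy => by
    have := (Perp θ).norm_orthogonalProjectionOnto_apply_le ((y : E d) - v)
    rw [map_sub, Submodule.orthogonalProjectionOnto_mem_subspace_eq_self] at this
    exact mem_closedBall_iff_norm.2 (this.trans (mem_closedBall_iff_norm.1 hy))
  refine ⟨((measure_mono a).trans_lt measure_closedBall_lt_top).ne,
    (measureReal_mono a measure_closedBall_lt_top.ne).trans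
      ((ball_le (by have := rk hθ; omega) _ hc).trans_eq ?_)⟩
  have e2 : c ^ d = c ^ finrank ℝ (Perp θ) * c := by rw [← pow_succ, rk hθ]
  rw [e2]; field_simp

theorem union_le {α : Type*} [MeasurableSpace α] (ν : Measure α) {X Y : Set α}
    {Z : ZMod 2 × Fin d → Set α} {r : ℝ} (hX : X ⊆ Y ∪ ⋃ p, Z p) (hY : ν Y ≠ ⊤)
    (hZ : ∀ p, ν (Z p) ≠ ⊤ ∧ ν.real (Z p) ≤ r) : ν.real X ≤ ν.real Y + 2 * d * r := by
  have a : ν (⋃ p, Z p) ≠ ⊤ := ((measure_iUnion_fintype_le _ _).trans_lt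
    (ENNReal.sum_lt_top.2 fun p _ => (hZ p).1.lt_top)).ne
  refine (measureReal_mono hX (measure_union_ne_top hY a)).trans
    ((measureReal_union_le _ _).trans ?_)
  gcongr
  refine (measureReal_iUnion_fintype_le _).trans
    ((Finset.sum_le_card_nsmul _ _ r fun p _ => (hZ p).2).trans_eq ?_)
  simp

theorem sd_est {V W I J ρ : ℝ} (hV : 0 < V) (h1 : W ≤ V) (h2 : V ≤ W + ρ * V) (h3 : J ≤ I)
    (h4 : I ≤ J + (V - W)) (h5 : V / 16 ≤ I) (h6 : J ≤ W) (hρ : ρ ≤ 1 / 32) :
    |√(I / V) - √(J / W)| ≤ 4 * ρ ∧ 1 / 4 ≤ √(I / V) ∧ √(I / V) ≤ 1 ∧ 1 / 8 ≤ √(J / W) ∧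
      √(J / W) ≤ 1 := by
  have hW : 0 < W := by nlinarith
  have hJ : 0 ≤ J := by nlinarith
  have r0 : 0 ≤ ρ := by nlinarith
  have a1 : 1 / 4 ≤ √(I / V) := Real.le_sqrt_of_sq_le (by rw [le_div_iff₀ hV]; linarith)
  have a2 : I / V - J / W ≤ ρ := by
    have : J / V ≤ J / W := by gcongr
    have : I / V ≤ J / V + ρ := by rw [div_add' _ _ _ hV.ne']; gcongr; linarith
    linarith
  have a3 : J / W - I / V ≤ ρ := by
    have : J / V ≤ I / V := by gcongr
    have e : J / W - J / V = J / W * ((V - W) / V) := by field_simp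
    have : J / W ≤ 1 := (div_le_one hW).2 h6
    have : (V - W) / V ≤ ρ := by rw [div_le_iff₀ hV]; linarith
    have : 0 ≤ (V - W) / V := div_nonneg (by linarith) hV.le
    nlinarith
  have b1 := Real.sq_sqrt (show 0 ≤ I / V from div_nonneg (by linarith) hV.le)
  have b2 := Real.sq_sqrt (show 0 ≤ J / W from div_nonneg hJ hW.le)
  have b3 := Real.sqrt_nonneg (J / W)
  have c : |√(I / V) - √(J / W)| ≤ 4 * ρ := by
    rw [abs_le]
    constructor <;> by_contra k <;> nlinarith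
  refine ⟨c, a1, Real.sqrt_le_one.2 ((div_le_one hV).2 (by linarith)), ?_,
    Real.sqrt_le_one.2 ((div_le_one hW).2 h6)⟩
  linarith [(abs_le.1 c).2]

theorem A_est {V W a b S T ρ η L : ℝ} (hV : 0 < V) (h1 : W ≤ V) (h2 : V ≤ W + ρ * V)
    (hρ : ρ ≤ 1 / 32) (h3 : |a - b| ≤ 4 * ρ) (b0 : 0 ≤ b) (b1 : b ≤ 1) (T0 : 0 ≤ T) (h4 : T ≤ S)
    (h5 : S ≤ T + η * V) (h6 : S ≤ L * V) : |a * S / V - b * T / W| ≤ 6 * ρ * L + η := by
  have hW : 0 < W := by nlinarith
  have r0 : 0 ≤ ρ := by nlinarith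
  have e : a * S / V - b * T / W =
      (a - b) * (S / V) + b * ((S - T) / V) - b * (T / V) * ((V - W) / W) := by field_simp; ring
  have p1 : S / V ≤ L := by rwa [div_le_iff₀ hV]
  have p2 : (S - T) / V ≤ η := by rw [div_le_iff₀ hV]; linarith
  have p3 : T / V ≤ S / V := by gcongr
  have p4 : (V - W) / W ≤ 2 * ρ := by rw [div_le_iff₀ hW]; nlinarith
  have q1 : 0 ≤ T / V := by positivity
  have q2 : 0 ≤ (S - T) / V := div_nonneg (by linarith) hV.le
  have q3 : 0 ≤ (V - W) / W := div_nonneg (by linarith) hW.le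
  have u1 : |(a - b) * (S / V)| ≤ 4 * ρ * L := by
    rw [abs_mul, abs_of_nonneg (q1.trans p3)]; gcongr; linarith
  have u2 : b * ((S - T) / V) ≤ 1 * η := by gcongr
  have u3 : b * (T / V) * ((V - W) / W) ≤ 1 * L * (2 * ρ) := by gcongr <;> linarith
  have u4 : 0 ≤ b * ((S - T) / V) := by positivity
  have u5 : 0 ≤ b * (T / V) * ((V - W) / W) := by positivity
  rw [e, abs_le] at *
  constructor <;> nlinarith

theorem main (H : Had d h) (hd : 4 ≤ d) (hq : 20000 * (d : ℝ) ^ 2 * (25 / 32) ^ d < 1) :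
    ∃ P Q : Set (E d), Polytope (d ^ 2) P ∧ Polytope (d ^ 2) Q ∧ P = -P ∧ Q = -Q ∧
      Isotropic P ∧ Isotropic Q ∧
      (∀ θ : E d, ‖θ‖ = 1 → |A P θ - A Q θ| ≤ 28 * d * (25 / 32) ^ d) ∧
      1 / 10 < hausdorffDist P Q := by
  have d4 : (4 : ℝ) ≤ d := by exact_mod_cast hd
  let i : Fin d := ⟨0, by omega⟩
  set t : ℝ := 1 / 8 * √d with ht
  have sq := Real.sq_sqrt (Nat.cast_nonneg (α := ℝ) d)
  have s2 : 2 ≤ √(d : ℝ) := Real.le_sqrt_of_sq_le (by linarith)
  have td : t < d := by nlinarith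
  set ρ : ℝ := 2 * d * (5 / 16) ^ d with hρ
  have q1 : ((5 : ℝ) / 16) ^ d ≤ (25 / 32) ^ d :=
    pow_le_pow_left₀ (by norm_num) (by norm_num) d
  have q0 : (0 : ℝ) < (5 / 16) ^ d := by positivity
  have ρ1 : 10000 * d * ρ < 1 := by
    refine lt_of_le_of_lt ?_ hq
    rw [hρ]; nlinarith [mul_le_mul_of_nonneg_left q1 (sq_nonneg (d : ℝ))]
  have ρ0 : 0 < ρ := by positivity
  have ρ2 : ρ ≤ 1 / 32 := by nlinarith
  have hV : volume.real (K h 1 0) = 2 ^ d := cube_vol H
  have V0 : 0 < volume.real (K h 1 0) := by rw [hV]; positivity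
  have f0 := (K_compact (h := h) zero_le_one 0).measure_lt_top (μ := volume) |>.ne
  have ft := (K_compact (h := h) zero_le_one t).measure_lt_top (μ := volume) |>.ne
  have mt := (K_compact (h := h) zero_le_one t).measurableSet
  have h1 := measureReal_mono (K_sub H t) f0
  have h2 : volume.real (K h 1 0) ≤ volume.real (K h 1 t) + ρ * volume.real (K h 1 0) := by
    refine (union_le volume (cover H t) ft fun p => ⟨measure_closedBall_lt_top.ne,
      ball_le (d := d) (by simp) _ (by norm_num)⟩).trans_eq ?_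
    rw [hV, hρ, mul_assoc _ (_ ^ d), ← mul_pow, finrank_euclideanSpace_fin, ← mul_pow]
    norm_num
  have one : ∀ x ∈ K h 1 0, x i * x i ≤ 1 := fun x hx => by
    have := abs_le.1 (hx.1 i); nlinarith
  have h3 : ∫ x in K h 1 t, x i * x i ≤ ∫ x in K h 1 0, x i * x i :=
    setIntegral_mono_set (sq_int zero_le_one 0 i) (.of_forall fun x => mul_self_nonneg _)
      (K_sub H t).eventuallyLE
  have up : ∀ X ⊆ K h 1 0, MeasurableSet X → ∫ x in X, x i * x i ≤ volume.real X :=
    fun X hX mX => by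
      have := setIntegral_mono_on ((sq_int zero_le_one 0 i).mono_set hX)
        (integrableOn_const (C := (1 : ℝ)) ((measure_mono hX).trans_lt f0.lt_top).ne) mX
        fun x hx => one x (hX hx)
      simpa using this
  have h4 : ∫ x in K h 1 0, x i * x i ≤ (∫ x in K h 1 t, x i * x i) +
      (volume.real (K h 1 0) - volume.real (K h 1 t)) := by
    have a := up _ sdiff_subset ((K_compact (h := h) zero_le_one 0).measurableSet.diff mt)
    rw [setIntegral_sdiff mt (sq_int zero_le_one 0 i) (K_sub H t),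
      measureReal_sdiff (K_sub H t) mt f0] at a
    linarith
  obtain ⟨e1, e2, e3, e4, e5⟩ := sd_est V0 h1 h2 h3 h4 (hV ▸ cube_low H i)
    (up _ (K_sub H t) mt) ρ2
  change |sd h 0 i - sd h t i| ≤ _ at e1
  change _ ≤ sd h 0 i at e2
  change sd h 0 i ≤ _ at e3
  change _ ≤ sd h t i at e4
  change sd h t i ≤ _ at e5
  have a0 : 0 < sd h 0 i := by linarith
  have b0 : 0 < sd h t i := by linarith
  refine ⟨K h (sd h 0 i)⁻¹ 0, K h (sd h t i)⁻¹ t, poly h hd (inv_pos.2 a0) (by linarith),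
    poly h hd (inv_pos.2 b0) td, K_neg _ _, K_neg _ _, iso H a0, iso H b0, fun θ hθ => ?_, ?_⟩
  · rw [K_smul (inv_pos.2 a0), K_smul (inv_pos.2 b0), A_smul _ hθ (inv_pos.2 a0),
      A_smul _ hθ (inv_pos.2 b0), inv_inv, inv_inv]
    have B := sec_ball hθ 0 one_pos
    have sub : {y : Perp θ | (y : E d) ∈ K h 1 0} ⊆
        {y : Perp θ | (y : E d) ∈ closedBall 0 (1 * √d)} := fun y hy =>
      mem_closedBall_zero_iff.2 (K_norm zero_le_one hy)
    have g0 := ((measure_mono sub).trans_lt B.1.lt_top).ne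
    have sub2 : {y : Perp θ | (y : E d) ∈ K h 1 t} ⊆ {y : Perp θ | (y : E d) ∈ K h 1 0} :=
      fun y hy => K_sub H t hy
    refine (A_est (η := 8 * ρ) (L := (5 / 2) ^ d) V0 h1 h2 ρ2 e1 b0.le e5 measureReal_nonneg
      (measureReal_mono sub2 g0) ?_ ?_).trans ?_
    · refine (union_le volume (Y := {y : Perp θ | (y : E d) ∈ K h 1 t})
        (Z := fun p => {y : Perp θ | (y : E d) ∈ closedBall (vx h p) (1 / 8 * √d)})
        (fun y hy => by simpa [ht] using cover H t hy) ((measure_mono sub2).trans_lt g0.lt_top).ne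
        fun p => sec_ball hθ _ (by norm_num)).trans_eq ?_
      have e : ((5 : ℝ) / 16) ^ d * 2 ^ d = (1 / 8) ^ d * 5 ^ d := by
        rw [← mul_pow, ← mul_pow]; norm_num
      rw [hV, hρ, mul_assoc 8, mul_assoc _ (_ ^ d), e]
      ring
    · refine (measureReal_mono sub B.1).trans (B.2.trans_eq ?_)
      rw [hV, ← mul_pow, ← mul_pow]; norm_num
    · have e : ((5 : ℝ) / 16) ^ d * (5 / 2) ^ d = (25 / 32) ^ d := by rw [← mul_pow]; norm_num
      rw [hρ]; nlinarith
  · set μ := (sd h 0 i)⁻¹ with hμ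
    set ν := (sd h t i)⁻¹ with hν
    have ν1 : 1 ≤ ν := (one_le_inv₀ b0).2 e5
    have μ0 : 0 < μ := inv_pos.2 a0
    have μν : ν - μ ≤ 128 * ρ := by
      have e : ν - μ = (sd h 0 i - sd h t i) / (sd h 0 i * sd h t i) := by
        rw [hμ, hν]; field_simp
      rw [e, div_le_iff₀ (by positivity)]
      have : 1 / 4 * (1 / 8) ≤ sd h 0 i * sd h t i := by gcongr
      nlinarith [(abs_le.1 e1).2]
    let v : E d := WithLp.toLp 2 fun _ => μ
    have hv : v ∈ K h μ 0 := (K_zero H μ v).2 fun j => (abs_of_pos μ0).le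
    have n0 : (K h ν t).Nonempty := ⟨0, interior_subset (K_int (by linarith) td)⟩
    refine lt_of_lt_of_le ?_ (infDist_le_hausdorffDist_of_mem hv
      (hausdorffEDist_ne_top_of_nonempty_of_bounded ⟨v, hv⟩ n0 (K_compact μ0.le 0).isBounded
        (K_compact (by linarith) t).isBounded))
    refine lt_of_lt_of_le (b := 1 / 9) (by norm_num) ((le_infDist n0).2 fun y hy => ?_)
    obtain ⟨b, hb⟩ := H.one
    have a1 := (abs_le.1 (hy.2 b)).2
    simp only [hb, one_mul] at a1
    have a2 : (∑ j, (v - y) j) ^ 2 ≤ d * ‖v - y‖ ^ 2 := by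
      simpa [EuclideanSpace.real_norm_sq_eq] using
        sq_sum_le_card_mul_sum_sq (s := Finset.univ) (f := fun j => (v - y) j)
    have a3 : ∑ j, (v - y) j = d * μ - ∑ j, y j := by simp [v, Finset.sum_sub_distrib]
    have a4 : ∑ j, (v - y) j ≤ √d * ‖v - y‖ :=
      (abs_le_of_sq_le_sq' (by rw [mul_pow, sq]; exact a2.trans_eq (by rw [← sq, Real.sq_sqrt (by positivity)])) (by positivity)).2
    rw [dist_eq_norm]
    by_contra k
    have a5 : √d * ‖v - y‖ ≤ √d * (1 / 9) := by gcongr; linarith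
    have a6 : d * (ν - μ) ≤ d * (128 * ρ) := by gcongr
    have a7 : 1 * t ≤ ν * t := by gcongr
    nlinarith

theorem result (t' : ℕ) : ∃ d : ℕ, 2 ≤ d ∧ ∃ P Q : Set (E d),
    Polytope (d ^ 2) P ∧ Polytope (d ^ 2) Q ∧ P = -P ∧ Q = -Q ∧ Isotropic P ∧ Isotropic Q ∧
      (∀ θ : E d, ‖θ‖ = 1 → |A P θ - A Q θ| ≤ ((d : ℝ) ^ t')⁻¹) ∧ 1 / 10 < hausdorffDist P Q := by
  have l := (tendsto_pow_const_mul_const_pow_of_abs_lt_one (t' + 2) (r := 25 / 32)
    (by rw [abs_of_pos] <;> norm_num)).comp (tendsto_pow_atTop_atTop_of_one_lt one_lt_two)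
  obtain ⟨m, hm, m2⟩ := ((l.eventually (gt_mem_nhds (show (0 : ℝ) < 1 / 20000 by norm_num))).and
    (eventually_ge_atTop 2)).exists
  obtain ⟨h, H⟩ := had m
  have d4 : 4 ≤ 2 ^ m := Nat.pow_le_pow_right (n := 2) (by norm_num) m2
  simp only [Function.comp] at hm
  generalize 2 ^ m = d at *
  have d1 : (4 : ℝ) ≤ d := by exact_mod_cast d4
  have p1 : (1 : ℝ) ≤ d ^ t' := one_le_pow₀ (by linarith)
  have q0 : (0 : ℝ) < (25 / 32) ^ d := by positivity
  rw [pow_add] at hm
  obtain ⟨P, Q, h1, h2, h3, h4, h5, h6, h7, h8⟩ := main H d4 (by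
    nlinarith [mul_le_mul_of_nonneg_right p1 (mul_pos (pow_pos (show (0 : ℝ) < d by linarith) 2) q0).le])
  refine ⟨d, by omega, P, Q, h1, h2, h3, h4, h5, h6, fun θ hθ => (h7 θ hθ).trans ?_, h8⟩
  rw [← one_div, le_div_iff₀ (by positivity)]
  have : (0 : ℝ) < d ^ t' * d * (25 / 32) ^ d := by positivity
  nlinarith

end Pool.Agent.Results.MP_9f0ab0_gt.Unstable
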